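import Mathlib

set_option autoImplicit false

namespace Pool.Agent.H.MP_a22eb7_al

open MonoidAlgebra

universe u v w

section

variable {M : Type u} [Monoid M] {ι : Type v} [Fintype ι] [DecidableEq ι]

theorem map_matrix_mul {R S : Type*} [CommRing R] [CommRing S] (f : R →+* S)
    (A B : Matrix ι ι (MonoidAlgebra R M)) :
    (mapRingHom M f).mapMatrix (A * B) =
      (mapRingHom M f).mapMatrix A * (mapRingHom M f).mapMatrix B :=
  map_mul _ _ _

theorem mapRingHom_injective' {R S : Type*} [CommRing R] [CommRing S] (f : R →+* S)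
    (hf : Function.Injective f) : Function.Injective (mapRingHom M f) := by
  intro x y hxy
  ext m
  apply hf
  rw [← coeff_mapRingHom, ← coeff_mapRingHom, hxy]

theorem mapMatrix_injective' {R S : Type*} [CommRing R] [CommRing S] (f : R →+* S)
    (hf : Function.Injective f) :
    Function.Injective ((mapRingHom M f).mapMatrix : Matrix ι ι (MonoidAlgebra R M) →+*
      Matrix ι ι (MonoidAlgebra S M)) := by
  intro A B hAB
  ext1 i j
  apply mapRingHom_injective' f hf
  exact congrFun (congrFun hAB i) j

/-- Lifting a matrix to a subring containing its coefficients. -/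
theorem exists_lift_subalgebra {k₀ : Type*} [Field k₀] {K : Type*} [Field K] [Algebra k₀ K]
    (Λ : Subalgebra k₀ K) (A : Matrix ι ι (MonoidAlgebra K M))
    (hA : ∀ i j m, (A i j).coeff m ∈ Λ) :
    ∃ A' : Matrix ι ι (MonoidAlgebra Λ M),
      (mapRingHom M (algebraMap Λ K)).mapMatrix A' = A := by
  classical
  refine ⟨fun i j => ⟨(A i j).coeff.support.attach.sum fun m =>
    Finsupp.single m.1 (⟨(A i j).coeff m.1, hA i j m.1⟩ : Λ)⟩, ?_⟩
  ext i j m
  simp only [RingHom.mapMatrix_apply, Matrix.map_apply, coeff_mapRingHom]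
  rw [Finsupp.finsetSum_apply, map_sum]
  simp only [Finsupp.single_apply]
  rw [Finset.sum_attach (A i j).coeff.support (fun x => (algebraMap Λ K)
    (if x = m then (⟨(A i j).coeff x, hA i j x⟩ : Λ) else 0))]
  by_cases hm : m ∈ (A i j).coeff.support
  · rw [Finset.sum_eq_single m]
    · rw [if_pos rfl]
      rfl
    · intro x _ hx
      rw [if_neg hx, map_zero]
    · intro h
      exact absurd hm h
  · rw [Finset.sum_eq_zero]
    · rw [Finsupp.notMem_support_iff] at hm
      exact hm.symm
    · intro x hx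
      rw [if_neg, map_zero]
      rintro rfl
      exact hm hx

/-- Specialisation of a one-sided inverse pair over a field to a finite extension of a subfield. -/
theorem exists_specialization (k₀ : Type*) [Field k₀] {K : Type w} [Field K] [Algebra k₀ K]
    (A B : Matrix ι ι (MonoidAlgebra K M)) (hAB : A * B = 1) (hBA : B * A ≠ 1) :
    ∃ (k' : Type w) (_ : Field k') (_ : Algebra k₀ k'), Module.Finite k₀ k' ∧
      ∃ A' B' : Matrix ι ι (MonoidAlgebra k' M), A' * B' = 1 ∧ B' * A' ≠ 1 := by
  classical
  let s : Finset K := (Finset.univ.biUnion fun i => Finset.univ.biUnion fun j =>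
    (A i j).coeff.support.image (A i j).coeff) ∪ (Finset.univ.biUnion fun i =>
      Finset.univ.biUnion fun j => (B i j).coeff.support.image (B i j).coeff)
  let Λ : Subalgebra k₀ K := Algebra.adjoin k₀ (s : Set K)
  have hA : ∀ i j m, (A i j).coeff m ∈ Λ := by
    intro i j m
    by_cases h0 : (A i j).coeff m = 0
    · rw [h0]; exact Λ.zero_mem
    · apply Algebra.subset_adjoin
      simp only [s, Finset.coe_union, Set.mem_union, Finset.mem_coe, Finset.mem_biUnion,
        Finset.mem_univ, true_and, Finset.mem_image]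
      exact Or.inl ⟨i, j, m, Finsupp.mem_support_iff.2 h0, rfl⟩
  have hB : ∀ i j m, (B i j).coeff m ∈ Λ := by
    intro i j m
    by_cases h0 : (B i j).coeff m = 0
    · rw [h0]; exact Λ.zero_mem
    · apply Algebra.subset_adjoin
      simp only [s, Finset.coe_union, Set.mem_union, Finset.mem_coe, Finset.mem_biUnion,
        Finset.mem_univ, true_and, Finset.mem_image]
      exact Or.inr ⟨i, j, m, Finsupp.mem_support_iff.2 h0, rfl⟩
  obtain ⟨A', hA'⟩ := exists_lift_subalgebra Λ A hA
  obtain ⟨B', hB'⟩ := exists_lift_subalgebra Λ B hB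
  have hinj : Function.Injective (algebraMap Λ K) := Subtype.val_injective
  have hAB' : A' * B' = 1 := by
    apply mapMatrix_injective' _ hinj
    rw [map_mul, hA', hB', hAB, map_one]
  have hBA' : B' * A' ≠ 1 := by
    intro h
    apply hBA
    rw [← hA', ← hB', ← map_mul, h, map_one]
  obtain ⟨i, j, m, hc⟩ : ∃ i j m, ((1 - B' * A') i j).coeff m ≠ 0 := by
    by_contra hcon
    push Not at hcon
    apply hBA'
    have h0 : (1 : Matrix ι ι (MonoidAlgebra Λ M)) - B' * A' = 0 := by
      ext i j m
      rw [hcon i j m]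
      simp
    exact (sub_eq_zero.1 h0).symm
  set c : Λ := ((1 - B' * A') i j).coeff m with hcdef
  have hft : Algebra.FiniteType k₀ Λ :=
    (Subalgebra.fg_iff_finiteType Λ).1 (Subalgebra.fg_adjoin_finset s)
  have hjac : IsJacobsonRing Λ := isJacobsonRing_of_finiteType (A := k₀)
  obtain ⟨I, hImax, hcI⟩ : ∃ I : Ideal Λ, I.IsMaximal ∧ c ∉ I := by
    by_contra hcon
    push Not at hcon
    apply hc
    have h1 : c ∈ (⊥ : Ideal Λ).jacobson := by
      rw [Ideal.jacobson, Ideal.mem_sInf]
      rintro I ⟨-, hI⟩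
      exact hcon I hI
    have h2 : (⊥ : Ideal Λ).jacobson = ⊥ := by
      have h3 : (⊥ : Ideal Λ).IsPrime := Ideal.isPrime_bot
      exact IsJacobsonRing.out hjac h3.isRadical
    rw [h2] at h1
    exact (Ideal.mem_bot.1 h1)
  let _ : Field (Λ ⧸ I) := Ideal.Quotient.field I
  refine ⟨Λ ⧸ I, inferInstance, inferInstance,
    finite_of_finite_type_of_isJacobsonRing k₀ (Λ ⧸ I),
    (mapRingHom M (Ideal.Quotient.mk I)).mapMatrix A',
    (mapRingHom M (Ideal.Quotient.mk I)).mapMatrix B', ?_, ?_⟩
  · rw [← map_mul, hAB', map_one]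
  · intro h
    apply hcI
    rw [← Ideal.Quotient.eq_zero_iff_mem, hcdef, ← coeff_mapRingHom]
    have h4 : (mapRingHom M (Ideal.Quotient.mk I)).mapMatrix (1 - B' * A') = 0 := by
      rw [map_sub, map_mul, h, map_one, sub_self]
    have h5 : (mapRingHom M (Ideal.Quotient.mk I)) ((1 - B' * A') i j) = 0 :=
      congrFun (congrFun h4 i) j
    rw [h5]
    simp

end

end Pool.Agent.H.MP_a22eb7_al
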