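import Pool.Agent.H.MP_a22eb7_al.Main
import Pool.Agent.H.MP_a22eb7_al.Transfer

set_option autoImplicit false

namespace Pool.Agent.H.MP_a22eb7_al

open MonoidAlgebra

/-- Stable finiteness over fields of characteristic zero for tame monoids. -/
theorem stablyFinite_charZero {M : Type*} [Monoid M] (hM : Tame M) {K : Type*} [Field K]
    [CharZero K] {ι : Type*} [Fintype ι] [DecidableEq ι]
    (A B : Matrix ι ι (MonoidAlgebra K M)) (hAB : A * B = 1) : B * A = 1 := by
  by_contra hBA
  obtain ⟨k', _, _, _, A', B', h1, h2⟩ := exists_specialization ℚ A B hAB hBA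
  have halg : Algebra.IsAlgebraic ℚ k' := Algebra.IsAlgebraic.of_finite ℚ k'
  let f : k' →+* ℂ := (IsAlgClosed.lift (M := ℂ) (R := ℚ) (S := k')).toRingHom
  have hf : Function.Injective f := f.injective
  apply h2
  apply mapMatrix_injective' f hf
  rw [map_mul, map_one]
  apply stablyFinite_complex hM
  rw [← map_mul, h1, map_one]

/-- The combinatorial description of direct finiteness. -/
theorem tame_iff {M : Type*} [Monoid M] : Tame M ↔
    (∀ e x y : M, e * e = e → e * x = x → x * e = x → e * y = y → y * e = y →
      x * y = e → y * x = e) ∧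
    (∀ b c d : M, b * c = b → b * d * c = c → b * d * d = d → b * d * (b * d) = b * d) := by
  constructor
  · intro h
    exact ⟨h.corner, fun b c d h1 h2 h3 => h.exotic (b * d) b c d h1 rfl h2 h3⟩
  · rintro ⟨h1, h2⟩
    refine ⟨h1, ?_⟩
    rintro a b c d hbc rfl hac had
    exact h2 b c d hbc hac had

end Pool.Agent.H.MP_a22eb7_al
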