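import Pool.Agent.H.MP_a22eb7_al.Matr2

set_option autoImplicit false

namespace Pool.Agent.H.MP_a22eb7_al

open MonoidAlgebra

section Class

variable {M : Type*} [Monoid M]

/-- Above every element of a finite set there is a maximal one. -/
theorem exists_maximal_above {α : Type*} (s : Finset α) (r : α → α → Prop)
    (hrefl : ∀ x, r x x) (htrans : ∀ x y z, r x y → r y z → r x z) {x₀ : α} (hx₀ : x₀ ∈ s) :
    ∃ x ∈ s, r x₀ x ∧ ∀ y ∈ s, r x y → r y x := by
  classical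
  obtain ⟨x, hx, hmax⟩ := exists_maximal_of_preorder (s.filter (fun x => r x₀ x))
    ⟨x₀, Finset.mem_filter.2 ⟨hx₀, hrefl x₀⟩⟩ r htrans
  rw [Finset.mem_filter] at hx
  refine ⟨x, hx.1, hx.2, fun y hy hxy => ?_⟩
  exact hmax y (Finset.mem_filter.2 ⟨hy, htrans _ _ _ hx.2 hxy⟩) hxy

/-- The main combinatorial lemma: a finite set `T ⊆ T T` in a tame monoid has, above each of its
elements, a `J`-maximal element whose `J`-class contains an idempotent. -/
theorem exists_class (hM : Tame M) (T : Finset M) (hT2 : ∀ s ∈ T, ∃ x ∈ T, ∃ y ∈ T, x * y = s)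
    {x₀ : M} (hx₀ : x₀ ∈ T) :
    ∃ e s₀ : M, e * e = e ∧ s₀ ∈ T ∧ JLE x₀ s₀ ∧ JLE e s₀ ∧ JLE s₀ e ∧
      (∀ m ∈ T, JLE e m → JLE m e) := by
  classical
  obtain ⟨s₀, hs₀, hxs, hmax⟩ := exists_maximal_above T (fun x y => JLE x y)
    (fun x => JLE.refl x) (fun _ _ _ h h' => JLE.trans h h') hx₀
  -- the part of `T` inside the `J`-class
  set TJ : Finset M := T.filter (fun m => JLE s₀ m) with hTJ
  have hmem : ∀ m, m ∈ TJ ↔ m ∈ T ∧ JLE s₀ m := fun m => by rw [hTJ, Finset.mem_filter]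
  have hle : ∀ m ∈ TJ, JLE m s₀ := fun m hm => hmax m ((hmem m).1 hm).1 ((hmem m).1 hm).2
  have hne : TJ.Nonempty := ⟨s₀, (hmem s₀).2 ⟨hs₀, JLE.refl _⟩⟩
  have hfac : ∀ s ∈ TJ, ∃ x ∈ TJ, ∃ y ∈ TJ, x * y = s := by
    intro s hs
    obtain ⟨x, hx, y, hy, hxy⟩ := hT2 s ((hmem s).1 hs).1
    refine ⟨x, (hmem x).2 ⟨hx, ?_⟩, y, (hmem y).2 ⟨hy, ?_⟩, hxy⟩
    · exact ((hmem s).1 hs).2.trans (hxy ▸ JLE.mul_left_self x y)
    · exact ((hmem s).1 hs).2.trans (hxy ▸ JLE.mul_right_self x y)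
  obtain ⟨b, hb, -, c, hc1, hc2, hbc⟩ := exists_refl_of_serial TJ hne
    (fun x y => JLE s₀ x ∧ ∃ t, JLE s₀ t ∧ JLE t s₀ ∧ y * t = x)
    (by
      rintro x y z ⟨hx, t, ht1, ht2, rfl⟩ ⟨hy, t', ht1', ht2', rfl⟩
      refine ⟨hx, t' * t, hx.trans ?_, (JLE.mul_left_self t' t).trans ht2', ?_⟩
      · rw [mul_assoc]
        exact JLE.mul_right_self _ _
      · rw [mul_assoc])
    (by
      intro s hs
      obtain ⟨x, hx, y, hy, hxy⟩ := hfac s hs
      exact ⟨x, hx, ((hmem s).1 hs).2, y, ((hmem y).1 hy).2, hle y hy, hxy⟩)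
  obtain ⟨d, hd, -, a, ha1, ha2, had⟩ := exists_refl_of_serial TJ hne
    (fun x y => JLE s₀ x ∧ ∃ t, JLE s₀ t ∧ JLE t s₀ ∧ t * y = x)
    (by
      rintro x y z ⟨hx, t, ht1, ht2, rfl⟩ ⟨hy, t', ht1', ht2', rfl⟩
      refine ⟨hx, t * t', hx.trans ?_, (JLE.mul_left_self t t').trans ht2, ?_⟩
      · rw [← mul_assoc]
        exact JLE.mul_left_self _ _
      · rw [mul_assoc])
    (by
      intro s hs
      obtain ⟨x, hx, y, hy, hxy⟩ := hfac s hs
      exact ⟨y, hy, ((hmem s).1 hs).2, x, ((hmem x).1 hx).2, hle x hx, hxy⟩)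
  have haa : a * a = a := hM.idem_of_stab hbc had (hc2.trans ((hmem d).1 hd).2)
    (ha2.trans ((hmem b).1 hb).2)
  refine ⟨a, s₀, haa, hs₀, hxs, ha2, ha1, fun m hm hem => ?_⟩
  exact (hmax m hm (ha1.trans hem)).trans ha1

/-- Choice of the factorisations. -/
theorem exists_factor {e : M} (he : e * e = e) (S : Finset M) (hS : ∀ m ∈ S, JLE m e) :
    ∃ u v : M → M, LocalGroup.Factor e S u v := by
  classical
  have h : ∀ m : M, ∃ p : M × M, (m ∈ S → m = p.1 * p.2) ∧ p.1 * e = p.1 ∧ e * p.2 = p.2 := by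
    intro m
    by_cases hm : m ∈ S
    · obtain ⟨p, q, hpq⟩ := hS m hm
      refine ⟨(p * e, e * q), fun _ => ?_, ?_, ?_⟩
      · simp only
        rw [mul_assoc p e, ← mul_assoc e e, he, ← mul_assoc]
        exact hpq
      · simp only
        rw [mul_assoc, he]
      · simp only
        rw [← mul_assoc, he]
    · exact ⟨(e, e), fun h => absurd h hm, he, he⟩
  choose f hf using h
  exact ⟨fun m => (f m).1, fun m => (f m).2, fun s hs => (hf s).1 hs, fun s => (hf s).2.1,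
    fun s => (hf s).2.2⟩

end Class

section CornerMonoid

universe u

variable {M : Type u} [Monoid M]

/-- The local monoid `e M e`. -/
def Corner (e : M) : Type u := {x : M // e * x = x ∧ x * e = x}

/-- The monoid structure of `e M e`. -/
@[reducible] def cornerMonoid {e : M} (he : e * e = e) : Monoid (Corner e) where
  mul x y := ⟨x.1 * y.1, by rw [← mul_assoc, x.2.1], by rw [mul_assoc, y.2.2]⟩
  mul_assoc x y z := Subtype.ext (mul_assoc x.1 y.1 z.1)
  one := ⟨e, he, he⟩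
  one_mul x := Subtype.ext x.2.1
  mul_one x := Subtype.ext x.2.2

theorem exists_localGroup (hM : Tame M) {e : M} (he : e * e = e) :
    ∃ (G : Type u) (_ : Group G), Nonempty (LocalGroup M e G) := by
  let _ : Monoid (Corner e) := cornerMonoid he
  let f : (Corner e)ˣ → M := fun g => g.1.1
  have hf1 : f 1 = e := rfl
  have hfm : ∀ g h, f (g * h) = f g * f h := fun _ _ => rfl
  have hinj : Function.Injective f := fun g h hgh => Units.ext (Subtype.ext hgh)
  have hge : ∀ w, e * w = w → w * e = w → JLE e w → ∃ g, f g = w := by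
    intro w h1 h2 h3
    obtain ⟨z, hz1, hz2, hz3, hz4⟩ := hM.exists_inv he h1 h2 h3
    exact ⟨⟨⟨w, h1, h2⟩, ⟨z, hz1, hz2⟩, Subtype.ext hz3, Subtype.ext hz4⟩, rfl⟩
  exact ⟨(Corner e)ˣ, inferInstance, ⟨(⟨f, hfm, hf1, hinj, hge⟩ : LocalGroup M e (Corner e)ˣ)⟩⟩

end CornerMonoid

end Pool.Agent.H.MP_a22eb7_al
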