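import Mathlib

set_option autoImplicit false

namespace Pool.Agent.H.MP_a22eb7_al

open MonoidAlgebra

/-- The `J`-preorder of a monoid: `x ≤ y` when `x` lies in the two-sided ideal `M y M`. -/
def JLE {M : Type*} [Monoid M] (x y : M) : Prop := ∃ p q : M, x = p * y * q

section JLE
variable {M : Type*} [Monoid M]

theorem JLE.refl (x : M) : JLE x x := ⟨1, 1, by simp⟩

theorem JLE.trans {x y z : M} (h : JLE x y) (h' : JLE y z) : JLE x z := by
  obtain ⟨p, q, rfl⟩ := h
  obtain ⟨p', q', rfl⟩ := h'
  exact ⟨p * p', q' * q, by simp only [mul_assoc]⟩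

theorem JLE.mul_left_self (x y : M) : JLE (x * y) x := ⟨1, y, by simp⟩

theorem JLE.mul_right_self (x y : M) : JLE (x * y) y := ⟨x, 1, by simp⟩

theorem JLE.mul_mid (x y z : M) : JLE (x * y * z) y := ⟨x, z, rfl⟩

end JLE

section Exotic
variable {M : Type*} [Monoid M]

/-- The universal one-sided inverse: if `b c = b`, `b d = a`, `a c = c`, `a d = d` then
`(1 - a + b) (1 - c + d) = 1` in every monoid ring. -/
theorem exotic_mul (R : Type*) [Ring R] {a b c d : M}
    (hbc : b * c = b) (hbd : b * d = a) (hac : a * c = c) (had : a * d = d) :
    ((1 : MonoidAlgebra R M) - single a 1 + single b 1) * (1 - single c 1 + single d 1) = 1 := by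
  have h1 : (single a 1 : MonoidAlgebra R M) * single c 1 = single c 1 := by
    rw [single_mul_single, hac, one_mul]
  have h2 : (single a 1 : MonoidAlgebra R M) * single d 1 = single d 1 := by
    rw [single_mul_single, had, one_mul]
  have h3 : (single b 1 : MonoidAlgebra R M) * single c 1 = single b 1 := by
    rw [single_mul_single, hbc, one_mul]
  have h4 : (single b 1 : MonoidAlgebra R M) * single d 1 = single a 1 := by
    rw [single_mul_single, hbd, one_mul]
  simp only [sub_mul, add_mul, mul_sub, mul_add, one_mul, mul_one, h1, h2, h3, h4]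
  abel

/-- If moreover the product in the other order is `1`, then `a` is idempotent. -/
theorem exotic_idem (R : Type*) [Ring R] [Nontrivial R] {a b c d : M}
    (hbc : b * c = b) (hbd : b * d = a) (hac : a * c = c) (had : a * d = d)
    (h : ((1 : MonoidAlgebra R M) - single c 1 + single d 1) * (1 - single a 1 + single b 1) = 1) :
    a * a = a := by
  classical
  by_contra hne
  have n1 : b ≠ a := by
    rintro rfl
    exact hne (by rw [had] at hbd; rw [hbd] at had; exact had)
  have n2 : c * a ≠ a := by
    intro h2
    apply hne
    calc a * a = a * (c * a) := by rw [h2]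
      _ = (a * c) * a := by rw [mul_assoc]
      _ = a := by rw [hac, h2]
  have n3 : d ≠ a := by
    rintro rfl
    exact hne had
  have n4 : d * b ≠ a := by
    intro h4
    have hda : d * a = d := by
      calc d * a = d * (b * d) := by rw [hbd]
        _ = (d * b) * d := by rw [mul_assoc]
        _ = d := by rw [h4, had]
    apply hne
    calc a * a = (d * b) * a := by rw [h4]
      _ = (d * b) * (d * b) := by rw [h4]
      _ = d * (b * d) * b := by simp only [mul_assoc]
      _ = (d * a) * b := by rw [hbd]
      _ = a := by rw [hda, h4]
  have n5 : c ≠ a := by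
    rintro rfl
    exact hne hac
  have n6 : c * b ≠ a := by
    intro h6
    have : a = c := by
      calc a = c * b := h6.symm
        _ = c * (b * c) := by rw [hbc]
        _ = (c * b) * c := by rw [mul_assoc]
        _ = c := by rw [h6, hac]
    exact n5 this.symm
  have n7 : d * a ≠ a := by
    intro h7
    apply hne
    calc a * a = a * (d * a) := by rw [h7]
      _ = (a * d) * a := by rw [mul_assoc]
      _ = a := by rw [had, h7]
  have key := congrArg (fun x : MonoidAlgebra R M => x.coeff a) h
  simp only [sub_mul, add_mul, mul_sub, mul_add, one_mul, mul_one, single_mul_single] at key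
  simp only [coeff_add, coeff_sub, coeff_single, Finsupp.add_apply, Finsupp.sub_apply,
    Finsupp.single_apply, n1, n2, n3, n4, n5, n6, n7, if_true, if_false] at key
  simp at key

end Exotic

end Pool.Agent.H.MP_a22eb7_al
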