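import Pool.Agent.H.MP_a22eb7_al.Comb

set_option autoImplicit false

namespace Pool.Agent.H.MP_a22eb7_al

open MonoidAlgebra

/-- The combinatorial content of direct finiteness of a monoid ring used in this development. -/
structure Tame (M : Type*) [Monoid M] : Prop where
  /-- every local submonoid `e M e` is directly finite -/
  corner : ∀ e x y : M, e * e = e → e * x = x → x * e = x → e * y = y → y * e = y →
    x * y = e → y * x = e
  /-- every exotic triple is degenerate -/
  exotic : ∀ a b c d : M, b * c = b → b * d = a → a * c = c → a * d = d → a * a = a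

/-- If a monoid ring is directly finite then the monoid is tame. -/
theorem tame_of_directlyFinite {M : Type*} [Monoid M] (R : Type*) [Ring R] [Nontrivial R]
    (h : ∀ a b : MonoidAlgebra R M, a * b = 1 → b * a = 1) : Tame M := by
  constructor
  · intro e x y hee hex hxe hey hye hxy
    have key : ((1 : MonoidAlgebra R M) - single e 1 + single x 1) *
        (1 - single e 1 + single y 1) = 1 := by
      simp only [sub_mul, add_mul, mul_sub, mul_add, one_mul, mul_one, single_mul_single,
        hee, hxe, hey, hxy]
      abel
    have key2 := h _ _ key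
    have key3 : (single (y * x) 1 : MonoidAlgebra R M) = single e 1 := by
      simp only [sub_mul, add_mul, mul_sub, mul_add, one_mul, mul_one, single_mul_single,
        hee, hex, hye] at key2
      have h6 : (single (y * x) 1 : MonoidAlgebra R M) - single e 1 = 0 := by
        calc (single (y * x) 1 : MonoidAlgebra R M) - single e 1
            = ((1 : MonoidAlgebra R M) - single e 1 + single y 1 -
          (single e 1 - single e 1 + single y 1) +
            (single x 1 - single x 1 + single (y * x) 1)) - 1 := by abel
          _ = 0 := by rw [key2, sub_self]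
      exact sub_eq_zero.mp h6
    exact single_left_injective (R := R) one_ne_zero key3
  · intro a b c d hbc hbd hac had
    exact exotic_idem R hbc hbd hac had (h _ _ (exotic_mul R hbc hbd hac had))

section
variable {M : Type*} [Monoid M]

/-- In a tame monoid, a left stabiliser inside a `J`-class containing a right-stabilised element is
idempotent. -/
theorem Tame.idem_of_stab (hM : Tame M) {a b c d : M} (hbc : b * c = b) (had : a * d = d)
    (hcd : JLE c d) (hab : JLE a b) : a * a = a := by
  obtain ⟨p, q, hc⟩ := hcd
  -- b₁ = b p, c₁ = d q p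
  have hb1 : (b * p) * (d * q) = b := by
    calc (b * p) * (d * q) = b * (p * d * q) := by simp only [mul_assoc]
      _ = b := by rw [← hc, hbc]
  have hb1c1 : (b * p) * (d * q * p) = b * p := by
    calc (b * p) * (d * q * p) = ((b * p) * (d * q)) * p := by simp only [mul_assoc]
      _ = b * p := by rw [hb1]
  have hac1 : a * (d * q * p) = d * q * p := by
    calc a * (d * q * p) = (a * d) * q * p := by simp only [mul_assoc]
      _ = d * q * p := by rw [had]
  have hab1 : JLE a (b * p) := by
    refine hab.trans ?_
    refine ⟨1, d * q, ?_⟩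
    rw [one_mul, hb1]
  obtain ⟨p', q', ha⟩ := hab1
  refine hM.exotic a (p' * (b * p)) (d * q * p) (d * q * p * q') ?_ ?_ hac1 ?_
  · rw [mul_assoc, hb1c1]
  · calc p' * (b * p) * (d * q * p * q') = p' * ((b * p) * (d * q * p)) * q' := by
          simp only [mul_assoc]
      _ = a := by rw [hb1c1, ← ha]
  · calc a * (d * q * p * q') = (a * (d * q * p)) * q' := by simp only [mul_assoc]
      _ = d * q * p * q' := by rw [hac1]

/-- In a tame monoid, if `e` is idempotent, `w ∈ e M e` and `e ≤ w` for the `J`-order, then `w` is
invertible in `e M e`. -/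
theorem Tame.exists_inv (hM : Tame M) {e w : M} (he : e * e = e) (hew : e * w = w)
    (hwe : w * e = w) (h : JLE e w) :
    ∃ z : M, e * z = z ∧ z * e = z ∧ w * z = e ∧ z * w = e := by
  obtain ⟨p, q, hpq⟩ := h
  -- (e p e) w (e q e) = e
  have h1 : (e * p * e) * w * (e * q * e) = e := by
    calc (e * p * e) * w * (e * q * e) = e * p * (e * w * e) * q * e := by simp only [mul_assoc]
      _ = e * p * w * q * e := by rw [hew, hwe]
      _ = e * (p * w * q) * e := by simp only [mul_assoc]
      _ = e := by rw [← hpq, he, he]
  have l1 : ∀ x : M, e * (e * x) = e * x := fun x => by rw [← mul_assoc, he]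
  have r1 : ∀ x : M, (x * e) * e = x * e := fun x => by rw [mul_assoc, he]
  -- first: right inverse
  have h2 : w * (e * q * e) * (e * p * e) = e := by
    refine hM.corner e (e * p * e) (w * (e * q * e)) he ?_ ?_ ?_ ?_ ?_
    · rw [mul_assoc e p e, l1]
    · rw [r1]
    · rw [← mul_assoc e w, hew]
    · rw [mul_assoc w, r1]
    · rw [← mul_assoc]; exact h1
  have h3 : (e * q * e) * ((e * p * e) * w) = e := by
    refine hM.corner e ((e * p * e) * w) (e * q * e) he ?_ ?_ ?_ ?_ h1
    · rw [← mul_assoc e, mul_assoc e p e, l1]
    · rw [mul_assoc _ w e, hwe]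
    · rw [mul_assoc e q e, l1]
    · rw [r1]
  refine ⟨(e * q * e) * (e * p * e), ?_, ?_, ?_, ?_⟩
  · rw [← mul_assoc e (e * q * e), mul_assoc e q e, l1]
  · rw [mul_assoc (e * q * e), r1]
  · rw [← mul_assoc]; exact h2
  · rw [mul_assoc]; exact h3

end

/-- A transitive relation on a finite nonempty set in which every element has a successor has a
reflexive point. -/
theorem exists_refl_of_serial {α : Type*} (s : Finset α) (hs : s.Nonempty) (r : α → α → Prop)
    (htrans : ∀ x y z, r x y → r y z → r x z) (hserial : ∀ x ∈ s, ∃ y ∈ s, r x y) :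
    ∃ x ∈ s, r x x := by
  classical
  by_contra hcon
  push Not at hcon
  -- build well-founded relation on subtype
  let r' : s → s → Prop := fun x y => r y.1 x.1
  have hirr : Std.Irrefl r' := ⟨fun x hx => hcon x.1 x.2 hx⟩
  have htr : IsTrans s r' := ⟨fun x y z hxy hyz => htrans _ _ _ hyz hxy⟩
  have hwf : WellFounded r' := Finite.wellFounded_of_trans_of_irrefl r'
  obtain ⟨x0, hx0⟩ := hs
  obtain ⟨m, -, hm⟩ := hwf.has_min Set.univ ⟨⟨x0, hx0⟩, trivial⟩
  obtain ⟨y, hy, hmy⟩ := hserial m.1 m.2
  exact hm ⟨y, hy⟩ trivial hmy

/-- A preorder has a maximal element on every finite nonempty set. -/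
theorem exists_maximal_of_preorder {α : Type*} (s : Finset α) (hs : s.Nonempty)
    (r : α → α → Prop) (htrans : ∀ x y z, r x y → r y z → r x z) :
    ∃ x ∈ s, ∀ y ∈ s, r x y → r y x := by
  classical
  by_contra hcon
  push Not at hcon
  obtain ⟨x, hx, hxx⟩ := exists_refl_of_serial s hs (fun x y => r x y ∧ ¬ r y x)
    (fun x y z h1 h2 => ⟨htrans _ _ _ h1.1 h2.1, fun h3 => h2.2 (htrans _ _ _ h3 h1.1)⟩)
    (fun x hx => by
      obtain ⟨y, hy, h1, h2⟩ := hcon x hx
      exact ⟨y, hy, h1, h2⟩)
  exact hxx.2 hxx.1

end Pool.Agent.H.MP_a22eb7_al
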