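import Mathlib

set_option autoImplicit false

namespace Pool.Agent.H.MP_a22eb7_al

open MonoidAlgebra
open scoped InnerProductSpace

section Unitary

variable {ι H : Type*} [NormedAddCommGroup H] [InnerProductSpace ℂ H] [CompleteSpace H]

/-- The unitary attached to a permutation of a Hilbert basis. -/
theorem exists_perm_unitary (b : HilbertBasis ι ℂ H) (σ : Equiv.Perm ι) :
    ∃ V : H ≃ₗᵢ[ℂ] H, ∀ i, V (b i) = b (σ i) := by
  classical
  have ho : Orthonormal ℂ (b ∘ σ) := b.orthonormal.comp σ σ.injective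
  have hs : ⊤ ≤ (Submodule.span ℂ (Set.range (b ∘ σ))).topologicalClosure := by
    rw [σ.surjective.range_comp, b.dense_span]
  refine ⟨b.repr.trans (HilbertBasis.mk ho hs).repr.symm, fun i => ?_⟩
  rw [LinearIsometryEquiv.trans_apply, HilbertBasis.repr_self, HilbertBasis.repr_symm_single,
    HilbertBasis.coe_mk]
  rfl

end Unitary

section Main

variable {I G : Type*} [Fintype I] [Group G]
variable {H : Type*} [NormedAddCommGroup H] [InnerProductSpace ℂ H] [CompleteSpace H]

/-- Kaplansky's theorem: an idempotent matrix over `ℂ[G]` whose trace has zero coefficient at `1`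
is zero. -/
theorem kaplansky_aux (b : HilbertBasis (I × G) ℂ H) (E : Matrix I I (MonoidAlgebra ℂ G))
    (hE : E * E = E) (h1 : ∑ i, (E i i).coeff 1 = 0) : E = 0 := by
  classical
  -- common support
  obtain ⟨W, hW⟩ : ∃ W : Finset G, ∀ i j g, (E i j).coeff g ≠ 0 → g ∈ W := by
    refine ⟨Finset.univ.biUnion fun i => Finset.univ.biUnion fun j => (E i j).coeff.support, ?_⟩
    intro i j g hg
    simp only [Finset.mem_biUnion, Finset.mem_univ, true_and]
    exact ⟨i, j, Finsupp.mem_support_iff.2 hg⟩
  have hsum : ∀ {A : Type _} [AddCommMonoid A] (i j : I) (F : G → ℂ → A), (∀ g, F g 0 = 0) →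
      (E i j).coeff.sum F = ∑ x ∈ W, F x ((E i j).coeff x) := by
    intro A _ i j F hF
    refine Finsupp.sum_of_support_subset _ ?_ _ (fun g _ => hF g)
    intro g hg
    exact hW i j g (Finsupp.mem_support_iff.1 hg)
  have hmul : ∀ i j g, ∑ l, ∑ x ∈ W, (E i l).coeff x * (E l j).coeff (x⁻¹ * g) =
      (E i j).coeff g := by
    intro i j g
    conv_rhs => rw [← hE, Matrix.mul_apply, coeff_sum, Finsupp.finsetSum_apply]
    refine Finset.sum_congr rfl fun l _ => ?_
    rw [coeff_mul_apply_left, hsum]
    intro g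
    rw [zero_mul]
  -- the columns
  let c : I × G → H := fun p => ∑ i, ∑ x ∈ W, (E i p.1).coeff x • b (i, x * p.2)
  have hbc : ∀ i g j h, ⟪b (i, g), c (j, h)⟫_ℂ = (E i j).coeff (g * h⁻¹) := by
    intro i g j h
    simp only [c, inner_sum, inner_smul_right]
    simp only [orthonormal_iff_ite.mp b.orthonormal, Prod.mk.injEq]
    rw [Finset.sum_eq_single i]
    · simp only [true_and, mul_ite, mul_one, mul_zero]
      rw [Finset.sum_eq_single (g * h⁻¹)]
      · simp
      · intro x _ hx
        rw [if_neg]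
        rintro rfl
        apply hx
        group
      · intro hx
        by_contra hne
        apply hx
        apply hW i j
        intro h0
        apply hne
        rw [h0]
        simp
    · intro l _ hl
      refine Finset.sum_eq_zero fun x _ => ?_
      rw [if_neg, mul_zero]
      rintro ⟨rfl, -⟩
      exact hl rfl
    · intro h
      exact absurd (Finset.mem_univ _) h
  let U : Submodule ℂ H := (Submodule.span ℂ (Set.range c)).topologicalClosure
  have hUc : IsClosed (U : Set H) := Submodule.isClosed_topologicalClosure _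
  have : CompleteSpace U := hUc.completeSpace_coe
  have hcU : ∀ p, c p ∈ U := fun p =>
    Submodule.le_topologicalClosure _ (Submodule.subset_span ⟨p, rfl⟩)
  -- the rows
  have hR : ∀ i g, ∀ v ∈ U, ∑ l, ∑ x ∈ W, (E i l).coeff x * ⟪b (l, x⁻¹ * g), v⟫_ℂ =
      ⟪b (i, g), v⟫_ℂ := by
    intro i g v hv
    have hclosed : IsClosed {v : H | ∑ l, ∑ x ∈ W, (E i l).coeff x * ⟪b (l, x⁻¹ * g), v⟫_ℂ =
      ⟪b (i, g), v⟫_ℂ} := by
      apply isClosed_eq
      · fun_prop
      · fun_prop
    have hsub : (Submodule.span ℂ (Set.range c) : Set H) ⊆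
        {v : H | ∑ l, ∑ x ∈ W, (E i l).coeff x * ⟪b (l, x⁻¹ * g), v⟫_ℂ =
      ⟪b (i, g), v⟫_ℂ} := by
      intro w hw
      refine Submodule.span_induction ?_ ?_ ?_ ?_ hw
      · rintro _ ⟨⟨j, h⟩, rfl⟩
        simp only [Set.mem_ofPred_eq, hbc]
        rw [← hmul i j (g * h⁻¹)]
        simp only [mul_assoc]
      · simp
      · intro y z _ _ hy hz
        simp only [Set.mem_ofPred_eq] at hy hz ⊢
        simp only [inner_add_right, mul_add, Finset.sum_add_distrib, hy, hz]
      · intro a y _ hy
        simp only [Set.mem_ofPred_eq] at hy ⊢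
        simp only [inner_smul_right]
        rw [← hy, Finset.mul_sum]
        refine Finset.sum_congr rfl fun l _ => ?_
        rw [Finset.mul_sum]
        refine Finset.sum_congr rfl fun x _ => ?_
        ring
    exact closure_minimal hsub hclosed hv
  -- equivariance
  have hequi : ∀ (i l : I) (x g h : G),
      ⟪b (i, g * x), U.starProjection (b (l, h * x))⟫_ℂ =
        ⟪b (i, g), U.starProjection (b (l, h))⟫_ℂ := by
    intro i l x g h
    obtain ⟨V, hV⟩ := exists_perm_unitary b
      ((Equiv.refl I).prodCongr (Equiv.mulRight x) : Equiv.Perm (I × G))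
    have hV' : ∀ i g, V (b (i, g)) = b (i, g * x) := fun i g => hV (i, g)
    have hVc : ∀ j h, V (c (j, h)) = c (j, h * x) := by
      intro j h
      simp only [c, map_sum, map_smul, hV', mul_assoc]
    have hVc' : ∀ j h, V.symm (c (j, h)) = c (j, h * x⁻¹) := by
      intro j h
      rw [LinearIsometryEquiv.symm_apply_eq, hVc, inv_mul_cancel_right]
    have hgen : ∀ V' : H ≃ₗᵢ[ℂ] H, (∀ p, V' (c p) ∈ U) → ∀ v ∈ U, V' v ∈ U := by
      intro V' hp v hv
      have hclosed : IsClosed {v : H | V' v ∈ U} := hUc.preimage V'.continuous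
      have hsub : (Submodule.span ℂ (Set.range c) : Set H) ⊆ {v : H | V' v ∈ U} := by
        have h3 : Submodule.span ℂ (Set.range c) ≤ U.comap (V'.toLinearEquiv : H →ₗ[ℂ] H) := by
          rw [Submodule.span_le]
          rintro _ ⟨p, rfl⟩
          exact hp p
        exact h3
      exact closure_minimal hsub hclosed hv
    have hVU : ∀ v ∈ U, V v ∈ U := hgen V (by
      rintro ⟨j, h⟩
      rw [hVc]
      exact hcU _)
    have hVU' : ∀ v ∈ U, V.symm v ∈ U := hgen V.symm (by
      rintro ⟨j, h⟩
      rw [hVc']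
      exact hcU _)
    have h2 : U.starProjection (V (b (l, h))) = V (U.starProjection (b (l, h))) := by
      refine Submodule.eq_starProjection_of_mem_of_inner_eq_zero
        (hVU _ (Submodule.starProjection_apply_mem _ _)) ?_
      intro w hw
      rw [← map_sub, ← V.apply_symm_apply w, V.inner_map_map]
      exact Submodule.starProjection_inner_eq_zero _ _ (hVU' w hw)
    rw [← hV', ← hV', h2, V.inner_map_map]
  -- trace of the projection
  have htr : ∑ i, ⟪b (i, 1), U.starProjection (b (i, 1))⟫_ℂ = ∑ i, (E i i).coeff 1 := by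
    calc ∑ i, ⟪b (i, 1), U.starProjection (b (i, 1))⟫_ℂ
        = ∑ i, ∑ l, ∑ x ∈ W, (E i l).coeff x * ⟪b (l, x⁻¹ * 1), U.starProjection (b (i, 1))⟫_ℂ := by
          refine Finset.sum_congr rfl fun i _ => ?_
          rw [hR i 1 _ (Submodule.starProjection_apply_mem _ _)]
      _ = ∑ i, ∑ l, ∑ x ∈ W, (E i l).coeff x * ⟪b (l, 1), U.starProjection (b (i, x))⟫_ℂ := by
          refine Finset.sum_congr rfl fun i _ => Finset.sum_congr rfl fun l _ =>
            Finset.sum_congr rfl fun x _ => ?_
          congr 1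
          rw [← hequi l i x (x⁻¹ * 1) 1]
          simp
      _ = ∑ l, ⟪b (l, 1), U.starProjection (c (l, 1))⟫_ℂ := by
          rw [Finset.sum_comm]
          refine Finset.sum_congr rfl fun l _ => ?_
          simp only [c, map_sum, map_smul, inner_sum, inner_smul_right, mul_one]
      _ = ∑ i, (E i i).coeff 1 := by
          refine Finset.sum_congr rfl fun l _ => ?_
          rw [Submodule.starProjection_eq_self_iff.2 (hcU _), hbc]
          simp
  have hnorm : ∀ i, ⟪b (i, 1), U.starProjection (b (i, 1))⟫_ℂ =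
      ((‖U.starProjection (b (i, 1))‖ ^ 2 : ℝ) : ℂ) := by
    intro i
    have h3 : U.starProjection (b (i, 1)) = U.starProjection (U.starProjection (b (i, 1))) :=
      (Submodule.starProjection_eq_self_iff.2 (Submodule.starProjection_apply_mem _ _)).symm
    conv_lhs => rw [h3, ← Submodule.inner_starProjection_left_eq_right]
    rw [inner_self_eq_norm_sq_to_K]
    simp
  have hzero : ∀ i, U.starProjection (b (i, 1)) = 0 := by
    have h4 : ((∑ i, ‖U.starProjection (b (i, 1))‖ ^ 2 : ℝ) : ℂ) = 0 := by
      rw [← h1, ← htr]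
      push_cast
      refine Finset.sum_congr rfl fun i _ => ?_
      rw [hnorm i]
      push_cast
      rfl
    have h5 : (∑ i, ‖U.starProjection (b (i, 1))‖ ^ 2 : ℝ) = 0 := by exact_mod_cast h4
    intro i
    have h6 := (Finset.sum_eq_zero_iff_of_nonneg (fun i _ => by positivity)).1 h5 i
      (Finset.mem_univ i)
    exact norm_eq_zero.1 (pow_eq_zero_iff (two_ne_zero)|>.1 h6)
  ext i j g
  have h7 : (E i j).coeff g = ⟪b (i, 1), c (j, g⁻¹)⟫_ℂ := by
    rw [hbc, inv_inv, one_mul]
  rw [h7, ← Submodule.starProjection_eq_self_iff.2 (hcU (j, g⁻¹)),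
    ← Submodule.inner_starProjection_left_eq_right, hzero, inner_zero_left]
  simp

/-- Kaplansky's theorem. -/
theorem kaplansky (E : Matrix I I (MonoidAlgebra ℂ G))
    (hE : E * E = E) (h1 : ∑ i, (E i i).coeff 1 = 0) : E = 0 :=
  kaplansky_aux (default : HilbertBasis (I × G) ℂ (lp (fun _ : I × G => ℂ) 2)) E hE h1

end Main

end Pool.Agent.H.MP_a22eb7_al
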