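import Pool.Agent.H.MP_a22eb7_al.Class
import Pool.Agent.H.MP_a22eb7_al.Kaplansky

set_option autoImplicit false

namespace Pool.Agent.H.MP_a22eb7_al

open MonoidAlgebra

section

variable {M : Type*} {Λ : Type*} [CommRing Λ] {ι : Type*} [Fintype ι]

/-- The support of a matrix over a monoid algebra. -/
theorem exists_support (F : Matrix ι ι (MonoidAlgebra Λ M)) :
    ∃ T : Finset M, ∀ m, m ∈ T ↔ ∃ i j, (F i j).coeff m ≠ 0 := by
  classical
  refine ⟨Finset.univ.biUnion fun i => Finset.univ.biUnion fun j => (F i j).coeff.support, ?_⟩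
  intro m
  simp only [Finset.mem_biUnion, Finset.mem_univ, true_and, Finsupp.mem_support_iff]

variable [Monoid M]

/-- The support of an idempotent matrix is contained in the square of itself. -/
theorem support_factor (F : Matrix ι ι (MonoidAlgebra Λ M)) (hF : F * F = F) (T : Finset M)
    (hT : ∀ m, m ∈ T ↔ ∃ i j, (F i j).coeff m ≠ 0) :
    ∀ s ∈ T, ∃ x ∈ T, ∃ y ∈ T, x * y = s := by
  classical
  intro s hs
  obtain ⟨i, j, hij⟩ := (hT s).1 hs
  rw [← hF, Matrix.mul_apply, coeff_sum, Finsupp.finsetSum_apply] at hij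
  obtain ⟨k, -, hk⟩ := Finset.exists_ne_zero_of_sum_ne_zero hij
  rw [coeff_mul, Finsupp.sum] at hk
  obtain ⟨x, hx, hk⟩ := Finset.exists_ne_zero_of_sum_ne_zero hk
  rw [Finsupp.sum] at hk
  obtain ⟨y, hy, hk⟩ := Finset.exists_ne_zero_of_sum_ne_zero hk
  refine ⟨x, (hT x).2 ⟨i, k, Finsupp.mem_support_iff.1 hx⟩, y,
    (hT y).2 ⟨k, j, Finsupp.mem_support_iff.1 hy⟩, ?_⟩
  by_contra hne
  exact hk (if_neg hne)

theorem idem_one_sub {R : Type*} [Ring R] {A B : R} (h : A * B = 1) :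
    (1 - B * A) * (1 - B * A) = 1 - B * A := by
  have h1 : B * A * (B * A) = B * A := by
    rw [mul_assoc, ← mul_assoc A B A, h, one_mul]
  rw [sub_mul, mul_sub (B * A), one_mul, mul_one, h1, sub_self, sub_zero]

variable [DecidableEq ι]

/-- Every trace vanishes on `1 - B A` when `A B = 1`. -/
theorem trace_one_sub {A B : Matrix ι ι (MonoidAlgebra Λ M)} (h : A * B = 1) (P : M → Prop)
    (hP : ∀ x y, P (x * y) ↔ P (y * x)) :
    ∑ i, ind Λ P ((1 - B * A) i i) = 0 := by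
  have h1 := ind_trace_mul_comm Λ P hP A B
  rw [h] at h1
  simp only [Matrix.sub_apply, map_sub, Finset.sum_sub_distrib]
  rw [h1, sub_self]

end

/-- Stable finiteness over `ℂ` for tame monoids. -/
theorem stablyFinite_complex {M : Type*} [Monoid M] (hM : Tame M) {ι : Type*} [Fintype ι]
    [DecidableEq ι] (A B : Matrix ι ι (MonoidAlgebra ℂ M)) (hAB : A * B = 1) : B * A = 1 := by
  classical
  by_contra hne
  obtain ⟨F, hFdef⟩ : ∃ F, F = 1 - B * A := ⟨_, rfl⟩
  have hF : F * F = F := by rw [hFdef]; exact idem_one_sub hAB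
  have hF0 : F ≠ 0 := by
    intro h0
    rw [hFdef] at h0
    exact hne (sub_eq_zero.1 h0).symm
  obtain ⟨T, hT⟩ := exists_support F
  obtain ⟨x₀, hx₀⟩ : ∃ x, x ∈ T := by
    by_contra hcon
    push Not at hcon
    apply hF0
    ext i j m
    by_contra hm
    exact hcon m ((hT m).2 ⟨i, j, hm⟩)
  obtain ⟨e, s₀, he, hs₀, -, hes₀, -, hmax⟩ := exists_class hM T (support_factor F hF T hT) hx₀
  obtain ⟨G, _, ⟨L⟩⟩ := exists_localGroup hM he
  set S : Finset M := T.filter (fun m => JLE e m) with hSdef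
  have hmemS : ∀ m, m ∈ S ↔ m ∈ T ∧ JLE e m := fun m => by rw [hSdef, Finset.mem_filter]
  obtain ⟨u, v, hf⟩ := exists_factor he S (fun m hm => hmax m ((hmemS m).1 hm).1 ((hmemS m).1 hm).2)
  have hST : ∀ m ∈ T, JLE e m → m ∈ S := fun m hm h => (hmemS m).2 ⟨hm, h⟩
  have hTS : S ⊆ T := fun m hm => ((hmemS m).1 hm).1
  have hT' : ∀ i j m, (F i j).coeff m ≠ 0 → m ∈ T := fun i j m hm => (hT m).2 ⟨i, j, hm⟩
  have hE : L.cm ℂ u v S F * L.cm ℂ u v S F = L.cm ℂ u v S F :=
    L.cm_mul_self ℂ hf hST hTS F hF hT'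
  have hN : ∀ g h : G, g * h ∈ ({1} : Set G) → h * g ∈ ({1} : Set G) := by
    intro g h hgh
    rw [Set.mem_singleton_iff] at hgh ⊢
    exact mul_eq_one_comm.1 hgh
  have htr : ∑ p, (L.cm ℂ u v S F p p).coeff 1 = 0 := by
    have h1 := L.trace_cm ℂ hf hST hTS hN F hT'
    rw [hF, hFdef, trace_one_sub hAB _ (L.SE_comm)] at h1
    rw [← hFdef] at h1
    rw [← h1]
    refine Finset.sum_congr rfl fun p _ => ?_
    generalize L.cm ℂ u v S F p p = y
    refine MonoidAlgebra.induction_linear y ?_ ?_ ?_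
    · simp
    · intro y y' hy hy'
      rw [map_add, coeff_add, Finsupp.add_apply, hy, hy']
    · intro g a
      rw [ind_single, coeff_single, Finsupp.single_apply]
      rfl
  have hE0 := kaplansky _ hE htr
  obtain ⟨i, j, hij⟩ := (hT s₀).1 hs₀
  exact hij (L.coeff_eq_zero_of_cm ℂ hf hST F hF hT' hE0 hes₀ i j)

end Pool.Agent.H.MP_a22eb7_al
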