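import Pool.Agent.H.MP_a22eb7_al.Struct

set_option autoImplicit false

namespace Pool.Agent.H.MP_a22eb7_al

open MonoidAlgebra

section Ind

variable {M : Type*} (Λ : Type*) [CommRing Λ]

open Classical in
/-- sum of the coefficients over the elements satisfying `P`. -/
noncomputable def ind (P : M → Prop) : MonoidAlgebra Λ M →ₗ[Λ] Λ :=
  (Finsupp.linearCombination Λ (fun m => if P m then (1 : Λ) else 0)) ∘ₗ
    (coeffLinearEquiv (S := Λ) (M := M) Λ).toLinearMap

open Classical in
theorem ind_single (P : M → Prop) (m : M) (a : Λ) :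
    ind Λ P (single m a) = if P m then a else 0 := by
  simp [ind]

theorem ind_mul_comm [Monoid M] (P : M → Prop) (hP : ∀ x y, P (x * y) ↔ P (y * x))
    (x y : MonoidAlgebra Λ M) : ind Λ P (x * y) = ind Λ P (y * x) := by
  classical
  refine MonoidAlgebra.induction_linear x ?_ ?_ ?_
  · simp
  · intro x x' hx hx'
    rw [add_mul, mul_add, map_add, map_add, hx, hx']
  · intro m a
    refine MonoidAlgebra.induction_linear y ?_ ?_ ?_
    · simp
    · intro y y' hy hy'
      rw [add_mul, mul_add, map_add, map_add, hy, hy']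
    · intro m' b
      rw [single_mul_single, single_mul_single, ind_single, ind_single, mul_comm a b]
      simp only [hP m m']

theorem ind_trace_mul_comm [Monoid M] (P : M → Prop) (hP : ∀ x y, P (x * y) ↔ P (y * x))
    {ι : Type*} [Fintype ι] (A B : Matrix ι ι (MonoidAlgebra Λ M)) :
    ∑ i, ind Λ P ((A * B) i i) = ∑ i, ind Λ P ((B * A) i i) := by
  simp only [Matrix.mul_apply, map_sum]
  rw [Finset.sum_comm]
  refine Finset.sum_congr rfl fun i _ => Finset.sum_congr rfl fun j _ => ?_
  exact ind_mul_comm Λ P hP _ _

end Ind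

/-- Expansion of an element of the monoid algebra over a finite set containing its support. -/
theorem eq_sum_single {Λ M : Type*} [CommRing Λ] (y : MonoidAlgebra Λ M) (T : Finset M)
    (hT : ∀ m, y.coeff m ≠ 0 → m ∈ T) : y = ∑ w ∈ T, single w (y.coeff w) := by
  classical
  ext m
  rw [coeff_sum, Finsupp.finsetSum_apply]
  simp only [coeff_single, Finsupp.single_apply]
  rw [Finset.sum_ite_eq']
  split_ifs with h
  · rfl
  · by_contra hne
    exact h (hT m hne)

namespace LocalGroup

variable {M : Type*} [Monoid M] {e : M} {G : Type*} [Group G] (L : LocalGroup M e G)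
variable (Λ : Type*) [CommRing Λ] (u v : M → M)

/-- the linear map `x ↦ [v_s x u_t]`. -/
noncomputable def bl (s t : M) : MonoidAlgebra Λ M →ₗ[Λ] MonoidAlgebra Λ G :=
  (Finsupp.linearCombination Λ (fun r => L.br Λ (v s * r * u t))) ∘ₗ
    (coeffLinearEquiv (S := Λ) (M := M) Λ).toLinearMap

theorem bl_single (s t r : M) (a : Λ) :
    L.bl Λ u v s t (single r a) = a • L.br Λ (v s * r * u t) := by
  simp [bl]

/-- data: a finite set `S` of elements `s = u_s v_s` with `u_s ∈ M e`, `v_s ∈ e M`. -/
structure Factor (e : M) (S : Finset M) (u v : M → M) : Prop where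
  fac : ∀ s ∈ S, s = u s * v s
  ue : ∀ s, u s * e = u s
  ev : ∀ s, e * v s = v s

variable {u v} {S T : Finset M}

theorem bl_mul3 (hf : Factor e S u v) (hST : ∀ m ∈ T, JLE e m → m ∈ S) (hTS : S ⊆ T)
    (s t : M) (x y z : MonoidAlgebra Λ M) (hy : ∀ m, y.coeff m ≠ 0 → m ∈ T) :
    L.bl Λ u v s t (x * y * z) =
      ∑ w ∈ S, y.coeff w • (L.bl Λ u v s w x * L.bl Λ u v w t z) := by
  classical
  refine MonoidAlgebra.induction_linear x ?_ ?_ ?_
  · simp
  · intro x x' hx hx'
    rw [add_mul, add_mul, map_add, hx, hx', ← Finset.sum_add_distrib]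
    refine Finset.sum_congr rfl fun w _ => ?_
    rw [map_add, add_mul, smul_add]
  · intro r a
    refine MonoidAlgebra.induction_linear z ?_ ?_ ?_
    · simp
    · intro z z' hz hz'
      rw [mul_add, map_add, hz, hz', ← Finset.sum_add_distrib]
      refine Finset.sum_congr rfl fun w _ => ?_
      rw [map_add, mul_add, smul_add]
    · intro r' b
      have h1 : (single r a * y * single r' b : MonoidAlgebra Λ M) =
          ∑ w ∈ T, single (r * w * r') (a * y.coeff w * b) := by
        conv_lhs => rw [eq_sum_single y T hy]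
        rw [Finset.mul_sum, Finset.sum_mul]
        refine Finset.sum_congr rfl fun w _ => ?_
        rw [single_mul_single, single_mul_single]
      rw [h1, map_sum, ← Finset.sum_subset hTS]
      · refine Finset.sum_congr rfl fun w hw => ?_
        rw [bl_single, bl_single, bl_single]
        have h2 : v s * (r * w * r') * u t = (v s * r * u w) * (v w * r' * u t) := by
          conv_lhs => rw [hf.fac w hw]
          simp only [mul_assoc]
        rw [h2, L.br_mul Λ, smul_mul_smul_comm, smul_smul]
        · congr 1
          ring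
        · rw [← mul_assoc, ← mul_assoc, hf.ev]
        · rw [mul_assoc, hf.ue]
        · rw [← mul_assoc, ← mul_assoc, hf.ev]
        · rw [mul_assoc, hf.ue]
      · intro w hwT hwS
        rw [bl_single, L.br_eq_zero_of_not_ge, smul_zero]
        intro hge
        refine hwS (hST w hwT (hge.trans ?_))
        refine ⟨v s * r, r' * u t, ?_⟩
        simp only [mul_assoc]

end LocalGroup

end Pool.Agent.H.MP_a22eb7_al
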