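import Pool.Agent.H.MP_a22eb7_al.Matr

set_option autoImplicit false

namespace Pool.Agent.H.MP_a22eb7_al

open MonoidAlgebra

namespace LocalGroup

variable {M : Type*} [Monoid M] {e : M} {G : Type*} [Group G] (L : LocalGroup M e G)
variable (Λ : Type*) [CommRing Λ] (u v : M → M)
variable {ι : Type*} [Fintype ι]

/-- The corner matrix attached to a matrix `F` over `Λ[M]`. -/
noncomputable def cm (S : Finset M) (F : Matrix ι ι (MonoidAlgebra Λ M)) :
    Matrix (S × ι) (S × ι) (MonoidAlgebra Λ G) :=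
  fun p q => ∑ k, (F p.2 k).coeff p.1.1 • L.bl Λ u v p.1.1 q.1.1 (F k q.2)

variable {u v} {S T : Finset M}

theorem cm_mul_self (hf : Factor e S u v) (hST : ∀ m ∈ T, JLE e m → m ∈ S) (hTS : S ⊆ T)
    (F : Matrix ι ι (MonoidAlgebra Λ M)) (hF : F * F = F)
    (hT : ∀ i j m, (F i j).coeff m ≠ 0 → m ∈ T) :
    L.cm Λ u v S F * L.cm Λ u v S F = L.cm Λ u v S F := by
  classical
  ext1 ⟨s, i⟩ ⟨t, j⟩
  rw [Matrix.mul_apply, Fintype.sum_prod_type]
  simp only [cm]
  have hF3 : ∀ k j, F k j = ∑ l', ∑ l, F k l * F l l' * F l' j := by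
    intro k j
    have h1 : F * F * F = F := by rw [hF, hF]
    conv_lhs => rw [← h1]
    rw [Matrix.mul_apply]
    refine Finset.sum_congr rfl fun l' _ => ?_
    rw [Matrix.mul_apply, Finset.sum_mul]
  have key : ∀ k, L.bl Λ u v s.1 t.1 (F k j) =
      ∑ l', ∑ l, ∑ w ∈ S, (F l l').coeff w • (L.bl Λ u v s.1 w (F k l) *
        L.bl Λ u v w t.1 (F l' j)) := by
    intro k
    conv_lhs => rw [hF3 k j]
    rw [map_sum]
    refine Finset.sum_congr rfl fun l' _ => ?_
    rw [map_sum]
    refine Finset.sum_congr rfl fun l _ => ?_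
    exact L.bl_mul3 Λ hf hST hTS s.1 t.1 _ _ _ (hT l l')
  calc ∑ w : S, ∑ l, (∑ k, (F i k).coeff s.1 • L.bl Λ u v s.1 w.1 (F k l)) *
          (∑ l', (F l l').coeff w.1 • L.bl Λ u v w.1 t.1 (F l' j))
      = ∑ w ∈ S, ∑ l, (∑ k, (F i k).coeff s.1 • L.bl Λ u v s.1 w (F k l)) *
          (∑ l', (F l l').coeff w • L.bl Λ u v w t.1 (F l' j)) := by
        exact Finset.sum_coe_sort S (fun w => ∑ l, (∑ k, (F i k).coeff s.1 •
          L.bl Λ u v s.1 w (F k l)) * (∑ l', (F l l').coeff w • L.bl Λ u v w t.1 (F l' j)))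
    _ = ∑ k, (F i k).coeff s.1 • ∑ l', ∑ l, ∑ w ∈ S, (F l l').coeff w •
          (L.bl Λ u v s.1 w (F k l) * L.bl Λ u v w t.1 (F l' j)) := by
        simp only [Finset.sum_mul_sum, Finset.smul_sum]
        -- LHS: ∑ w, ∑ l, ∑ k, ∑ l' ; RHS: ∑ k, ∑ l', ∑ l, ∑ w
        have e1 : ∀ (f : M → ι → ι → ι → MonoidAlgebra Λ G),
            ∑ w ∈ S, ∑ l, ∑ k, ∑ l', f w l k l' = ∑ k, ∑ l', ∑ l, ∑ w ∈ S, f w l k l' := by
          intro f
          calc ∑ w ∈ S, ∑ l, ∑ k, ∑ l', f w l k l'
              = ∑ l, ∑ w ∈ S, ∑ k, ∑ l', f w l k l' := Finset.sum_comm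
            _ = ∑ l, ∑ k, ∑ w ∈ S, ∑ l', f w l k l' :=
                Finset.sum_congr rfl fun l _ => Finset.sum_comm
            _ = ∑ k, ∑ l, ∑ w ∈ S, ∑ l', f w l k l' := Finset.sum_comm
            _ = ∑ k, ∑ l, ∑ l', ∑ w ∈ S, f w l k l' :=
                Finset.sum_congr rfl fun k _ => Finset.sum_congr rfl fun l _ => Finset.sum_comm
            _ = ∑ k, ∑ l', ∑ l, ∑ w ∈ S, f w l k l' :=
                Finset.sum_congr rfl fun k _ => Finset.sum_comm
        rw [e1]
        refine Finset.sum_congr rfl fun k _ => Finset.sum_congr rfl fun l' _ =>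
          Finset.sum_congr rfl fun l _ => Finset.sum_congr rfl fun w _ => ?_
        rw [smul_mul_smul_comm, smul_smul]
    _ = ∑ k, (F i k).coeff s.1 • L.bl Λ u v s.1 t.1 (F k j) := by
        refine Finset.sum_congr rfl fun k _ => ?_
        rw [key k]

open Classical in
theorem ind_bl (hf : Factor e S u v) {N : Set G} (hN : ∀ g h : G, g * h ∈ N → h * g ∈ N)
    {s : M} (hs : s ∈ S) (x : MonoidAlgebra Λ M) :
    ind Λ (fun g => g ∈ N) (L.bl Λ u v s s x) = ind Λ (L.SE N) (single s 1 * x) := by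
  refine MonoidAlgebra.induction_linear x ?_ ?_ ?_
  · simp
  · intro x y hx hy
    rw [map_add, map_add, hx, hy, mul_add, map_add]
  · intro r a
    rw [bl_single, map_smul, single_mul_single, ind_single, one_mul]
    have h1 : L.SE N (s * r) ↔ ∃ g ∈ N, L.emb g = v s * r * u s := by
      have h2 := L.SE_mul_iff (N := N) hN (us := u s) (vs := v s) (r := r) (hf.ue s) (hf.ev s)
      rw [← hf.fac s hs] at h2
      exact h2
    by_cases h : ∃ g, L.emb g = v s * r * u s
    · obtain ⟨g, hg⟩ := h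
      rw [← hg, br_emb, ind_single]
      by_cases hgN : g ∈ N
      · rw [if_pos hgN, if_pos (h1.2 ⟨g, hgN, hg⟩), smul_eq_mul, mul_one]
      · rw [if_neg hgN, if_neg, smul_zero]
        intro hSE
        obtain ⟨g', hg'N, hg'⟩ := h1.1 hSE
        exact hgN (L.emb_inj (hg'.trans hg.symm) ▸ hg'N)
    · rw [L.br_eq_zero Λ h, map_zero, smul_zero, if_neg]
      intro hSE
      obtain ⟨g', _, hg'⟩ := h1.1 hSE
      exact h ⟨g', hg'⟩

theorem ind_SE_single_mul_eq_zero {N : Set G} {s : M} (hs : ¬ JLE e s) (x : MonoidAlgebra Λ M) :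
    ind Λ (L.SE N) (single s 1 * x) = 0 := by
  classical
  refine MonoidAlgebra.induction_linear x ?_ ?_ ?_
  · simp
  · intro x y hx hy
    rw [mul_add, map_add, hx, hy, add_zero]
  · intro r a
    rw [single_mul_single, ind_single, if_neg]
    intro hSE
    exact hs ((SE.ge L hSE).trans (JLE.mul_left_self _ _))

/-- The Hattori–Stallings type trace of the corner matrix. -/
theorem trace_cm (hf : Factor e S u v) (hST : ∀ m ∈ T, JLE e m → m ∈ S) (hTS : S ⊆ T)
    {N : Set G} (hN : ∀ g h : G, g * h ∈ N → h * g ∈ N)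
    (F : Matrix ι ι (MonoidAlgebra Λ M)) (hT : ∀ i j m, (F i j).coeff m ≠ 0 → m ∈ T) :
    ∑ p, ind Λ (fun g => g ∈ N) (L.cm Λ u v S F p p) =
      ∑ i, ind Λ (L.SE N) ((F * F) i i) := by
  classical
  rw [Fintype.sum_prod_type]
  simp only [cm]
  calc ∑ s : S, ∑ i, ind Λ (fun g => g ∈ N)
          (∑ k, (F i k).coeff s.1 • L.bl Λ u v s.1 s.1 (F k i))
      = ∑ s ∈ S, ∑ i, ind Λ (fun g => g ∈ N)
          (∑ k, (F i k).coeff s • L.bl Λ u v s s (F k i)) :=
        Finset.sum_coe_sort S (fun s => ∑ i, ind Λ (fun g => g ∈ N)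
          (∑ k, (F i k).coeff s • L.bl Λ u v s s (F k i)))
    _ = ∑ s ∈ S, ∑ i, ∑ k, (F i k).coeff s • ind Λ (L.SE N) (single s 1 * F k i) := by
        refine Finset.sum_congr rfl fun s hs => Finset.sum_congr rfl fun i _ => ?_
        rw [map_sum]
        refine Finset.sum_congr rfl fun k _ => ?_
        rw [map_smul, L.ind_bl Λ hf hN hs]
    _ = ∑ s ∈ T, ∑ i, ∑ k, (F i k).coeff s • ind Λ (L.SE N) (single s 1 * F k i) := by
        refine Finset.sum_subset hTS ?_
        intro s hsT hsS
        refine Finset.sum_eq_zero fun i _ => Finset.sum_eq_zero fun k _ => ?_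
        rw [L.ind_SE_single_mul_eq_zero Λ (fun h => hsS (hST s hsT h)), smul_zero]
    _ = ∑ i, ∑ k, ∑ s ∈ T, (F i k).coeff s • ind Λ (L.SE N) (single s 1 * F k i) := by
        rw [Finset.sum_comm]
        exact Finset.sum_congr rfl fun i _ => Finset.sum_comm
    _ = ∑ i, ind Λ (L.SE N) ((F * F) i i) := by
        refine Finset.sum_congr rfl fun i _ => ?_
        rw [Matrix.mul_apply, map_sum]
        refine Finset.sum_congr rfl fun k _ => ?_
        conv_rhs => rw [eq_sum_single (F i k) T (hT i k), Finset.sum_mul, map_sum]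
        refine Finset.sum_congr rfl fun s _ => ?_
        rw [← map_smul, ← smul_mul_assoc, smul_single, smul_eq_mul, mul_one]

/-- the linear map `g ↦ u_s g v_t`. -/
noncomputable def gl (u v : M → M) (s t : M) : MonoidAlgebra Λ G →ₗ[Λ] MonoidAlgebra Λ M :=
  (Finsupp.linearCombination Λ (fun g => (single (u s * L.emb g * v t) 1 : MonoidAlgebra Λ M))) ∘ₗ
    (coeffLinearEquiv (S := Λ) (M := G) Λ).toLinearMap

theorem gl_single (s t : M) (g : G) (a : Λ) :
    L.gl Λ u v s t (single g a) = single (u s * L.emb g * v t) a := by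
  simp [gl]

theorem coeff_gl_bl (hf : Factor e S u v) {s t : M} (hs : s ∈ S) (ht : t ∈ S) {x : M}
    (hx : JLE e x) (y : MonoidAlgebra Λ M) :
    (L.gl Λ u v s t (L.bl Λ u v s t y)).coeff x = (single s 1 * y * single t 1).coeff x := by
  classical
  refine MonoidAlgebra.induction_linear y ?_ ?_ ?_
  · simp
  · intro y y' hy hy'
    rw [map_add, map_add, coeff_add, Finsupp.add_apply, hy, hy', mul_add, add_mul, coeff_add,
      Finsupp.add_apply]
  · intro r a
    rw [bl_single, map_smul, single_mul_single, single_mul_single, one_mul, mul_one]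
    have h1 : s * r * t = u s * (v s * r * u t) * v t := by
      conv_lhs => rw [hf.fac s hs, hf.fac t ht]
      simp only [mul_assoc]
    by_cases h : ∃ g, L.emb g = v s * r * u t
    · obtain ⟨g, hg⟩ := h
      rw [← hg, br_emb, gl_single, smul_single, smul_eq_mul, mul_one, hg, h1]
    · rw [L.br_eq_zero Λ h, map_zero, smul_zero, coeff_zero, Finsupp.zero_apply, coeff_single,
        Finsupp.single_apply, if_neg]
      intro hxe
      apply h
      apply L.exists_of_ge
      · rw [← mul_assoc, ← mul_assoc, hf.ev]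
      · rw [mul_assoc, hf.ue]
      · rw [← hxe, h1] at hx
        exact hx.trans (JLE.mul_mid _ _ _)

theorem coeff_eq_zero_of_cm (hf : Factor e S u v) (hST : ∀ m ∈ T, JLE e m → m ∈ S)
    (F : Matrix ι ι (MonoidAlgebra Λ M)) (hF : F * F = F)
    (hT : ∀ i j m, (F i j).coeff m ≠ 0 → m ∈ T) (hE : L.cm Λ u v S F = 0) {x : M}
    (hx : JLE e x) (i j : ι) : (F i j).coeff x = 0 := by
  classical
  have h1 : F * F * F = F := by rw [hF, hF]
  -- vanishing of the terms outside S
  have hz1 : ∀ s, ¬ JLE e s → ∀ y z : MonoidAlgebra Λ M, (single s 1 * y * z).coeff x = 0 := by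
    intro s hs y z
    rw [mul_assoc]
    generalize y * z = w
    refine MonoidAlgebra.induction_linear w ?_ ?_ ?_
    · simp
    · intro y y' hy hy'
      rw [mul_add, coeff_add, Finsupp.add_apply, hy, hy', add_zero]
    · intro r a
      rw [single_mul_single, coeff_single, Finsupp.single_apply, if_neg]
      intro hxe
      exact hs (hx.trans (hxe ▸ JLE.mul_left_self _ _))
  have hz2 : ∀ t, ¬ JLE e t → ∀ w : MonoidAlgebra Λ M, (w * single t 1).coeff x = 0 := by
    intro t ht w
    refine MonoidAlgebra.induction_linear w ?_ ?_ ?_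
    · simp
    · intro y y' hy hy'
      rw [add_mul, coeff_add, Finsupp.add_apply, hy, hy', add_zero]
    · intro r a
      rw [single_mul_single, coeff_single, Finsupp.single_apply, if_neg]
      intro hxe
      exact ht (hx.trans (hxe ▸ JLE.mul_right_self _ _))
  have expand : F i j = ∑ l, ∑ s ∈ T, ∑ t ∈ T, ∑ k,
      ((F l j).coeff t * (F i k).coeff s) • (single s 1 * F k l * single t 1) := by
    conv_lhs => rw [← h1]
    rw [Matrix.mul_apply]
    refine Finset.sum_congr rfl fun l _ => ?_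
    rw [Matrix.mul_apply, Finset.sum_mul]
    calc ∑ k, F i k * F k l * F l j
        = ∑ k, ∑ s ∈ T, ∑ t ∈ T, ((F l j).coeff t * (F i k).coeff s) •
            (single s 1 * F k l * single t 1) := by
          refine Finset.sum_congr rfl fun k _ => ?_
          conv_lhs => rw [eq_sum_single (F i k) T (hT i k), eq_sum_single (F l j) T (hT l j)]
          rw [Finset.sum_mul, Finset.sum_mul]
          refine Finset.sum_congr rfl fun s _ => ?_
          rw [Finset.mul_sum]
          refine Finset.sum_congr rfl fun t _ => ?_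
          have a1 : (single s ((F i k).coeff s) : MonoidAlgebra Λ M) =
              (F i k).coeff s • single s 1 := by rw [smul_single, smul_eq_mul, mul_one]
          have a2 : (single t ((F l j).coeff t) : MonoidAlgebra Λ M) =
              (F l j).coeff t • single t 1 := by rw [smul_single, smul_eq_mul, mul_one]
          rw [a1, a2, smul_mul_assoc, smul_mul_smul_comm, mul_comm]
      _ = ∑ s ∈ T, ∑ t ∈ T, ∑ k, ((F l j).coeff t * (F i k).coeff s) •
            (single s 1 * F k l * single t 1) := by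
          rw [Finset.sum_comm]
          exact Finset.sum_congr rfl fun s _ => Finset.sum_comm
  rw [expand, coeff_sum, Finsupp.finsetSum_apply]
  refine Finset.sum_eq_zero fun l _ => ?_
  rw [coeff_sum, Finsupp.finsetSum_apply]
  refine Finset.sum_eq_zero fun s hs => ?_
  rw [coeff_sum, Finsupp.finsetSum_apply]
  refine Finset.sum_eq_zero fun t ht => ?_
  rw [coeff_sum, Finsupp.finsetSum_apply]
  by_cases hes : JLE e s
  · by_cases het : JLE e t
    · have hsS := hST s hs hes
      have htS := hST t ht het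
      have h2 : ∀ k, (((F l j).coeff t * (F i k).coeff s) •
          (single s 1 * F k l * single t 1 : MonoidAlgebra Λ M)).coeff x =
          (F l j).coeff t * (L.gl Λ u v s t ((F i k).coeff s • L.bl Λ u v s t (F k l))).coeff x := by
        intro k
        rw [coeff_smul_apply, ← L.coeff_gl_bl Λ hf hsS htS hx, map_smul, coeff_smul_apply,
          smul_eq_mul, smul_eq_mul, mul_assoc]
      rw [Finset.sum_congr rfl fun k _ => h2 k, ← Finset.mul_sum]
      have h3 : ∑ k, (L.gl Λ u v s t ((F i k).coeff s • L.bl Λ u v s t (F k l))).coeff x =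
          (L.gl Λ u v s t (L.cm Λ u v S F (⟨s, hsS⟩, i) (⟨t, htS⟩, l))).coeff x := by
        simp only [cm]
        rw [map_sum, coeff_sum, Finsupp.finsetSum_apply]
      rw [h3, hE]
      simp
    · refine Finset.sum_eq_zero fun k _ => ?_
      rw [coeff_smul_apply, hz2 t het, smul_zero]
  · refine Finset.sum_eq_zero fun k _ => ?_
    rw [coeff_smul_apply, hz1 s hes, smul_zero]

end LocalGroup

end Pool.Agent.H.MP_a22eb7_al
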