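import Pool.Agent.H.MP_a22eb7_al.Comb2

set_option autoImplicit false

namespace Pool.Agent.H.MP_a22eb7_al

open MonoidAlgebra

/-- A group `G` realised as the group of units of the local monoid `e M e`, containing every element
of `e M e` which is above `e` in the `J`-order. -/
structure LocalGroup (M : Type*) [Monoid M] (e : M) (G : Type*) [Group G] where
  /-- the embedding -/
  emb : G → M
  emb_mul : ∀ g h, emb (g * h) = emb g * emb h
  emb_one : emb 1 = e
  emb_inj : Function.Injective emb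
  exists_of_ge : ∀ w, e * w = w → w * e = w → JLE e w → ∃ g, emb g = w

namespace LocalGroup

variable {M : Type*} [Monoid M] {e : M} {G : Type*} [Group G] (L : LocalGroup M e G)

include L in
theorem idem : e * e = e := by
  have h := L.emb_mul 1 1
  rw [one_mul, L.emb_one] at h
  exact h.symm

theorem e_mul_emb (g : G) : e * L.emb g = L.emb g := by
  have h := L.emb_mul 1 g
  rw [one_mul, L.emb_one] at h
  exact h.symm

theorem emb_mul_e (g : G) : L.emb g * e = L.emb g := by
  have h := L.emb_mul g 1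
  rw [mul_one, L.emb_one] at h
  exact h.symm

theorem ge (g : G) : JLE e (L.emb g) := by
  refine ⟨1, L.emb g⁻¹, ?_⟩
  rw [one_mul, ← L.emb_mul, mul_inv_cancel, L.emb_one]

section SE

/-- `m` is shift equivalent to an element of `N`. -/
def SE (N : Set G) (m : M) : Prop :=
  ∃ (u v : M) (g : G) (k : ℕ), g ∈ N ∧ u * e = u ∧ e * v = v ∧ u * v = m ^ (k + 1) ∧
    v * u = L.emb (g ^ (k + 1)) ∧ m * u = u * L.emb g ∧ v * m = L.emb g * v

theorem SE.swap {N : Set G} {x y : M} (h : L.SE N (x * y)) : L.SE N (y * x) := by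
  obtain ⟨u, v, g, k, hg, hue, hev, huv, hvu, hmu, hvm⟩ := h
  refine ⟨y * u, v * x, g, k + 1, hg, ?_, ?_, ?_, ?_, ?_, ?_⟩
  · rw [mul_assoc, hue]
  · rw [← mul_assoc, hev]
  · calc y * u * (v * x) = y * (u * v) * x := by simp only [mul_assoc]
      _ = y * (x * y) ^ (k + 1) * x := by rw [huv]
      _ = (y * x) ^ (k + 1 + 1) := by
        have h1 : ∀ n : ℕ, y * (x * y) ^ n * x = (y * x) ^ (n + 1) := by
          intro n
          induction n with
          | zero => simp
          | succ n ih =>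
            calc y * (x * y) ^ (n + 1) * x = (y * (x * y) ^ n * x) * (y * x) := by
                  rw [pow_succ]; simp only [mul_assoc]
              _ = (y * x) ^ (n + 1 + 1) := by rw [ih, ← pow_succ]
        exact h1 (k + 1)
  · calc v * x * (y * u) = (v * (x * y)) * u := by simp only [mul_assoc]
      _ = L.emb g * (v * u) := by rw [hvm, mul_assoc]
      _ = L.emb (g ^ (k + 1 + 1)) := by rw [hvu, ← L.emb_mul, ← pow_succ']
  · calc y * x * (y * u) = y * (x * y * u) := by simp only [mul_assoc]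
      _ = y * u * L.emb g := by rw [hmu, mul_assoc]
  · calc v * x * (y * x) = (v * (x * y)) * x := by simp only [mul_assoc]
      _ = L.emb g * (v * x) := by rw [hvm, mul_assoc]

theorem SE_comm {N : Set G} (x y : M) : L.SE N (x * y) ↔ L.SE N (y * x) :=
  ⟨fun h => SE.swap L h, fun h => SE.swap L h⟩

theorem SE.ge {N : Set G} {m : M} (h : L.SE N m) : JLE e m := by
  obtain ⟨u, v, g, k, hg, hue, hev, huv, hvu, hmu, hvm⟩ := h
  -- emb (g^(k+2)) = v m u
  have h1 : v * m * u = L.emb (g ^ (k + 2)) := by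
    rw [hvm, mul_assoc, hvu, ← L.emb_mul, ← pow_succ']
  exact (L.ge (g ^ (k + 2))).trans ⟨v, u, h1.symm⟩

theorem SE_mul_iff {N : Set G} (hN : ∀ g h : G, g * h ∈ N → h * g ∈ N) {us vs r : M}
    (hu : us * e = us) (hv : e * vs = vs) :
    L.SE N (us * vs * r) ↔ ∃ g ∈ N, L.emb g = vs * r * us := by
  constructor
  · rintro ⟨u, v, g, k, hg, hue, hev, huv, hvu, hmu, hvm⟩
    have hzy : (v * us) * (vs * r * u) = L.emb (g ^ (k + 2)) := by
      calc (v * us) * (vs * r * u) = v * (us * vs * r) * u := by simp only [mul_assoc]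
        _ = L.emb (g ^ (k + 2)) := by
          rw [hvm, mul_assoc, hvu, ← L.emb_mul, ← pow_succ']
    have hy : ∃ b, L.emb b = vs * r * u := by
      apply L.exists_of_ge
      · rw [← mul_assoc, ← mul_assoc, hv]
      · rw [mul_assoc, hue]
      · refine (L.ge (g ^ (k + 2))).trans ?_
        rw [← hzy]
        exact JLE.mul_right_self _ _
    obtain ⟨b, hb⟩ := hy
    have hwy : (vs * r * us) * (vs * r * u) = (vs * r * u) * L.emb g := by
      calc (vs * r * us) * (vs * r * u) = vs * r * (us * vs * r * u) := by simp only [mul_assoc]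
        _ = (vs * r * u) * L.emb g := by rw [hmu]; simp only [mul_assoc]
    refine ⟨b * g * b⁻¹, ?_, ?_⟩
    · apply hN
      simpa using hg
    · rw [L.emb_mul, L.emb_mul, hb, ← hwy, ← hb, mul_assoc, ← L.emb_mul, mul_inv_cancel,
        L.emb_one, mul_assoc, hu]
  · rintro ⟨g, hg, hgw⟩
    refine ⟨us, vs * r, g, 0, hg, hu, ?_, ?_, ?_, ?_, ?_⟩
    · rw [← mul_assoc, hv]
    · simp [mul_assoc]
    · simp [hgw]
    · rw [hgw]; simp only [mul_assoc]
    · rw [hgw]; simp only [mul_assoc]

end SE

section Br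

variable (Λ : Type*) [CommRing Λ]

open Classical in
/-- the class in `Λ[G]` of an element of `M`: itself if it is in `G`, and `0` otherwise. -/
noncomputable def br (w : M) : MonoidAlgebra Λ G :=
  if h : ∃ g, L.emb g = w then single h.choose 1 else 0

theorem br_emb (g : G) : L.br Λ (L.emb g) = single g 1 := by
  have h : ∃ g', L.emb g' = L.emb g := ⟨g, rfl⟩
  rw [br, dif_pos h, L.emb_inj h.choose_spec]

theorem br_eq_zero {w : M} (h : ¬ ∃ g, L.emb g = w) : L.br Λ w = 0 := by
  rw [br, dif_neg h]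

theorem br_eq_zero_of_not_ge {w : M} (h : ¬ JLE e w) : L.br Λ w = 0 := by
  apply L.br_eq_zero
  rintro ⟨g, rfl⟩
  exact h (L.ge g)

theorem br_mul {w w' : M} (h1 : e * w = w) (h2 : w * e = w) (h3 : e * w' = w') (h4 : w' * e = w') :
    L.br Λ (w * w') = L.br Λ w * L.br Λ w' := by
  by_cases h : JLE e (w * w')
  · obtain ⟨g, hg⟩ := L.exists_of_ge w h1 h2 (h.trans (JLE.mul_left_self _ _))
    obtain ⟨g', hg'⟩ := L.exists_of_ge w' h3 h4 (h.trans (JLE.mul_right_self _ _))
    rw [← hg, ← hg', ← L.emb_mul, L.br_emb, L.br_emb, L.br_emb, single_mul_single, one_mul]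
  · rw [L.br_eq_zero_of_not_ge Λ h]
    by_cases hw : ∃ g, L.emb g = w
    · by_cases hw' : ∃ g, L.emb g = w'
      · obtain ⟨g, rfl⟩ := hw
        obtain ⟨g', rfl⟩ := hw'
        rw [← L.emb_mul] at h
        exact absurd (L.ge _) h
      · rw [L.br_eq_zero Λ hw', mul_zero]
    · rw [L.br_eq_zero Λ hw, zero_mul]

end Br

end LocalGroup

end Pool.Agent.H.MP_a22eb7_al
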